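import Mathlib

namespace Pool.Agent.Results.MP_eb9ef7_pr.Select
open MeasureTheory Filter Topology Set Metric
open scoped ENNReal BoundedContinuousFunction

/-- A random closed set: closed values and Effros measurable. -/
def IsRCS {Ω E : Type*} [MeasurableSpace Ω] [TopologicalSpace E] (X : Ω → Set E) : Prop :=
  (∀ ω, IsClosed (X ω)) ∧ ∀ G : Set E, IsOpen G → MeasurableSet {ω | (X ω ∩ G).Nonempty}

open Classical in
noncomputable def pick (p : ℕ → Prop) (d : ℕ) : ℕ := if h : ∃ i, p i then Nat.find h else d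

lemma pick_spec {p : ℕ → Prop} (h : ∃ i, p i) (d : ℕ) :
    p (pick p d) ∧ ∀ i, i < pick p d → ¬ p i := by
  classical
  unfold pick
  rw [dif_pos h]
  exact ⟨Nat.find_spec h, fun i hi => Nat.find_min h hi⟩

lemma pick_eq {p : ℕ → Prop} {n : ℕ} (h1 : p n) (h2 : ∀ i, i < n → ¬ p i) (d : ℕ) :
    pick p d = n := by
  obtain ⟨h3, h4⟩ := pick_spec ⟨n, h1⟩ d
  rcases lt_trichotomy (pick p d) n with h | h | h
  · exact absurd h3 (h2 _ h)
  · exact h
  · exact absurd h1 (h4 _ h)

lemma pick_not {p : ℕ → Prop} (h : ¬ ∃ i, p i) (d : ℕ) : pick p d = d := by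
  unfold pick
  rw [dif_neg h]

lemma pick_meas {S : Type*} [MeasurableSpace S] {p : S → ℕ → Prop} {d : S → ℕ}
    (hp : ∀ i, MeasurableSet {y | p y i}) (hd : Measurable d) :
    Measurable fun y => pick (p y) (d y) := by
  refine measurable_to_countable' fun n => ?_
  have : (fun y => pick (p y) (d y)) ⁻¹' {n} =
      ({y | p y n} ∩ ⋂ i, ⋂ (_ : i < n), {y | p y i}ᶜ) ∪ ((⋂ i, {y | p y i}ᶜ) ∩ d ⁻¹' {n}) := by
    ext y
    simp only [mem_preimage, mem_singleton_iff, mem_union, mem_inter_iff, mem_ofPred_eq,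
      mem_iInter, mem_compl_iff]
    constructor
    · intro h
      by_cases he : ∃ i, p y i
      · left; rw [← h]; exact pick_spec he _
      · right; rw [pick_not he] at h; exact ⟨fun i hi => he ⟨i, hi⟩, h⟩
    · rintro (⟨h1, h2⟩ | ⟨h1, h2⟩)
      · exact pick_eq h1 h2 _
      · rw [pick_not (fun ⟨i, hi⟩ => h1 i hi), h2]
  rw [this]
  exact ((hp n).inter (MeasurableSet.iInter fun i => MeasurableSet.iInter fun _ =>
    (hp i).compl)).union ((MeasurableSet.iInter fun i => (hp i).compl).inter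
      (hd (measurableSet_singleton n)))

section det
variable {E : Type*} [MetricSpace E] (x : ℕ → E) (r : ℕ → ℝ)

noncomputable def idx : ℕ → (ℕ → ℝ≥0∞) → ℕ
  | 0, y => pick (fun i => y i < ENNReal.ofReal (r 0)) 0
  | k + 1, y => pick (fun i => dist (x (idx k y)) (x i) < r k ∧ y i < ENNReal.ofReal (r (k + 1)))
      (idx k y)

lemma idx_meas (k : ℕ) : Measurable (idx x r k) := by
  induction k with
  | zero =>
    exact pick_meas (fun i => measurableSet_lt (measurable_pi_apply i) measurable_const)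
      measurable_const
  | succ k ih =>
    refine pick_meas (p := fun y i => dist (x (idx x r k y)) (x i) < r k ∧
      y i < ENNReal.ofReal (r (k + 1))) (fun i => MeasurableSet.inter ?_ ?_) ih
    · exact ih (MeasurableSet.of_discrete (s := {j | dist (x j) (x i) < r k}))
    · exact measurableSet_lt (measurable_pi_apply i) measurable_const

variable {r} (hr : ∀ k, 0 < r k ∧ r k ≤ 2 / 2 / 2 ^ k)
include hr

lemma idx_step (y : ℕ → ℝ≥0∞) (k : ℕ) :
    dist (x (idx x r k y)) (x (idx x r (k + 1) y)) ≤ 2 / 2 / 2 ^ k := by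
  refine le_trans ?_ (hr k).2
  by_cases h : ∃ i, dist (x (idx x r k y)) (x i) < r k ∧ y i < ENNReal.ofReal (r (k + 1))
  · exact (pick_spec h _).1.1.le
  · rw [idx, pick_not h, dist_self]; exact (hr k).1.le

variable {x} (hx : DenseRange x)
include hx

omit hr in
lemma ex_step {F : Set E} {z : E} {a b : ℝ} (h : infEDist z F < ENNReal.ofReal a) (hb : 0 < b) :
    ∃ i, dist z (x i) < a ∧ infEDist (x i) F < ENNReal.ofReal b := by
  obtain ⟨w, hw, h1⟩ := infEDist_lt_iff.1 h
  rw [edist_lt_ofReal] at h1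
  obtain ⟨i, hi⟩ := hx.exists_dist_lt w (lt_min hb (sub_pos.2 h1))
  rw [lt_min_iff] at hi
  refine ⟨i, ?_, infEDist_lt_iff.2 ⟨w, hw, ?_⟩⟩
  · have := dist_triangle z w (x i); linarith [hi.2]
  · rw [edist_lt_ofReal, dist_comm]; exact hi.1

lemma ex_zero {F : Set E} (hF : F.Nonempty) : ∃ i, infEDist (x i) F < ENNReal.ofReal (r 0) := by
  obtain ⟨w, hw⟩ := hF
  obtain ⟨i, hi⟩ := hx.exists_dist_lt w (hr 0).1
  exact ⟨i, infEDist_lt_iff.2 ⟨w, hw, by rw [edist_lt_ofReal, dist_comm]; exact hi⟩⟩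

lemma idx_near {F : Set E} (hF : F.Nonempty) (k : ℕ) :
    infEDist (x (idx x r k fun i => infEDist (x i) F)) F < ENNReal.ofReal (r k) := by
  induction k with
  | zero => exact (pick_spec (ex_zero hr hx hF) 0).1
  | succ k ih => exact (pick_spec (ex_step hx ih (hr (k + 1)).1) _).1.2

lemma idx_det {F : Set E} (hF : F.Nonempty) (k : ℕ) : ∃ m, ∀ y : ℕ → ℝ≥0∞,
    (∀ i, i < m → ∀ l, l ≤ k →
      (y i < ENNReal.ofReal (r l) ↔ infEDist (x i) F < ENNReal.ofReal (r l))) →
    idx x r k y = idx x r k fun i => infEDist (x i) F := by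
  induction k with
  | zero =>
    refine ⟨(idx x r 0 fun i => infEDist (x i) F) + 1, fun y hy => ?_⟩
    obtain ⟨h1, h2⟩ := pick_spec (ex_zero hr hx hF) 0
    exact pick_eq ((hy _ (Nat.lt_succ_self _) 0 le_rfl).2 h1)
      (fun i hi h => h2 i hi ((hy i (Nat.lt_succ_of_lt hi) 0 le_rfl).1 h)) _
  | succ k ih =>
    obtain ⟨m, hm⟩ := ih
    refine ⟨m + (idx x r (k + 1) fun i => infEDist (x i) F) + 1, fun y hy => ?_⟩
    have h0 := hm y fun i hi l hl => hy i (by omega) l (by omega)
    obtain ⟨h1, h2⟩ := pick_spec (ex_step hx (idx_near hr hx hF k) (hr (k + 1)).1)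
      (idx x r k fun i => infEDist (x i) F)
    have h3 : (idx x r (k + 1) fun i => infEDist (x i) F) =
        pick (fun i => dist (x (idx x r k fun i => infEDist (x i) F)) (x i) < r k ∧
          infEDist (x i) F < ENNReal.ofReal (r (k + 1)))
        (idx x r k fun i => infEDist (x i) F) := by rw [idx]
    rw [← h3] at h1 h2
    rw [idx, h0]
    exact pick_eq ⟨h1.1, (hy _ (by omega) _ le_rfl).2 h1.2⟩
      (fun i hi h => h2 i hi ⟨h.1, (hy i (by omega) _ le_rfl).1 h.2⟩) _

end det

lemma rcs_meas {Ω E : Type*} [MeasurableSpace Ω] [MetricSpace E] {X : Ω → Set E} (h : IsRCS X)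
    (z : E) : Measurable fun ω => infEDist z (X ω) := by
  refine measurable_of_Iio fun c => ?_
  have : (fun ω => infEDist z (X ω)) ⁻¹' Iio c = {ω | (X ω ∩ {w | edist z w < c}).Nonempty} := by
    ext ω
    simp only [mem_preimage, mem_Iio, infEDist_lt_iff, mem_ofPred_eq]
    rfl
  rw [this]
  exact h.2 _ (isOpen_lt (continuous_const.edist continuous_id) continuous_const)

theorem result {E : Type*} [NormedAddCommGroup E] [NormedSpace ℝ E] [CompleteSpace E]
    [TopologicalSpace.SeparableSpace E] [MeasurableSpace E] [BorelSpace E]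
    {Ω : ℕ → Type*} [∀ n, MeasurableSpace (Ω n)] (P : ∀ n, Measure (Ω n))
    [∀ n, IsProbabilityMeasure (P n)]
    {Ω' : Type*} [MeasurableSpace Ω'] (Q : Measure Ω') [IsProbabilityMeasure Q]
    (X : ∀ n, Ω n → Set E) (Y : Ω' → Set E) (hX : ∀ n, IsRCS (X n)) (hY : IsRCS Y)
    (hXne : ∀ n, ∀ᵐ ω ∂(P n), (X n ω).Nonempty) (hYne : ∀ᵐ ω ∂Q, (Y ω).Nonempty)
    (hconv : ∀ k : ℕ, 1 ≤ k → ∀ (z : Fin k → E) (g : (Fin k → ℝ≥0∞) →ᵇ ℝ),
      Tendsto (fun n => ∫ ω, g (fun i => infEDist (z i) (X n ω)) ∂(P n)) atTop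
        (𝓝 (∫ ω, g (fun i => infEDist (z i) (Y ω)) ∂Q))) :
    ∃ (ξ : ∀ n, Ω n → E) (η : Ω' → E),
      (∀ n, Measurable (ξ n) ∧ ∀ᵐ ω ∂(P n), ξ n ω ∈ X n ω) ∧
      (Measurable η ∧ ∀ᵐ ω ∂Q, η ω ∈ Y ω) ∧
      ∀ g : E →ᵇ ℝ, Tendsto (fun n => ∫ ω, g (ξ n ω) ∂(P n)) atTop (𝓝 (∫ ω, g (η ω) ∂Q)) := by
  obtain ⟨x, hx⟩ := TopologicalSpace.exists_dense_seq E
  have hB : (⋃ i, {t : ℝ | 0 < Q {ω | (infEDist (x i) (Y ω)).toReal = t}}).Countable :=
    countable_iUnion fun i =>
      Measure.countable_meas_level_set_pos (rcs_meas hY (x i)).ennreal_toReal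
  have hex : ∀ k : ℕ, ∃ t : ℝ, (0 < t ∧ t ≤ 2 / 2 / 2 ^ k) ∧
      ∀ i, Q {ω | (infEDist (x i) (Y ω)).toReal = t} = 0 := by
    intro k
    obtain ⟨t, h1, h2⟩ := (hB.dense_compl ℝ).exists_mem_open isOpen_Ioo
      (nonempty_Ioo.2 (show (0 : ℝ) < 2 / 2 / 2 ^ k by positivity))
    refine ⟨t, ⟨h2.1, h2.2.le⟩, fun i => ?_⟩
    by_contra h
    exact h1 (mem_iUnion.2 ⟨i, pos_iff_ne_zero.2 h⟩)
  choose r hr hr0 using hex
  let s : (ℕ → ℝ≥0∞) → E := fun y => limUnder atTop fun k => x (idx x r k y)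
  have hs : ∀ y, Tendsto (fun k => x (idx x r k y)) atTop (𝓝 (s y)) := fun y =>
    (cauchySeq_of_le_geometric_two (idx_step x hr y)).tendsto_limUnder
  have hsd : ∀ y k, dist (x (idx x r k y)) (s y) ≤ 2 / 2 ^ k := fun y k =>
    dist_le_of_le_geometric_two_of_tendsto (idx_step x hr y) (hs y) k
  have hsm : Measurable s := measurable_of_tendsto_metrizable
    (fun k => (measurable_from_top (f := x)).comp (idx_meas x r k)) (tendsto_pi_nhds.2 hs)
  have hsmall : ∀ ε : ℝ, 0 < ε → ∃ k : ℕ, 4 / 2 ^ k < ε := by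
    intro ε hε
    obtain ⟨k, hk⟩ := pow_unbounded_of_one_lt (4 / ε) (one_lt_two (α := ℝ))
    refine ⟨k, ?_⟩
    rw [div_lt_iff₀ hε] at hk
    rw [div_lt_iff₀ (by positivity)]
    linarith
  have hmem : ∀ F : Set E, IsClosed F → F.Nonempty → s (fun i => infEDist (x i) F) ∈ F := by
    intro F h1 h2
    refine h1.closure_subset (Metric.mem_closure_iff.2 fun ε hε => ?_)
    obtain ⟨k, hk⟩ := hsmall ε hε
    obtain ⟨w, hw, h3⟩ := infEDist_lt_iff.1 (idx_near hr hx h2 k)
    rw [edist_lt_ofReal] at h3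
    refine ⟨w, hw, ?_⟩
    have h4 := hsd (fun i => infEDist (x i) F) k
    have h5 := dist_triangle_left (s fun i => infEDist (x i) F) w
      (x (idx x r k fun i => infEDist (x i) F))
    have h6 := (hr k).2
    have h7 : (4 : ℝ) / 2 ^ k = 2 / 2 ^ k + 2 / 2 ^ k := by ring
    have h8 : (2 : ℝ) / 2 ^ k = 2 / 2 / 2 ^ k + 2 / 2 / 2 ^ k := by ring
    linarith [(hr k).1]
  have hmX : ∀ n, Measurable fun ω => s fun i => infEDist (x i) (X n ω) := fun n =>
    hsm.comp (measurable_pi_lambda _ fun i => rcs_meas (hX n) (x i))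
  have hmY : Measurable fun ω => s fun i => infEDist (x i) (Y ω) :=
    hsm.comp (measurable_pi_lambda _ fun i => rcs_meas hY (x i))
  refine ⟨fun n ω => s fun i => infEDist (x i) (X n ω), fun ω => s fun i => infEDist (x i) (Y ω),
    fun n => ⟨hmX n, (hXne n).mono fun ω h => hmem _ ((hX n).1 ω) h⟩,
    ⟨hmY, hYne.mono fun ω h => hmem _ (hY.1 ω) h⟩, ?_⟩
  let μs : ℕ → ProbabilityMeasure E := fun n =>
    ⟨(P n).map fun ω => s fun i => infEDist (x i) (X n ω),
      Measure.isProbabilityMeasure_map (hmX n).aemeasurable⟩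
  let μ : ProbabilityMeasure E := ⟨Q.map fun ω => s fun i => infEDist (x i) (Y ω),
      Measure.isProbabilityMeasure_map hmY.aemeasurable⟩
  have key : Tendsto μs atTop (𝓝 μ) := by
    refine tendsto_of_forall_isOpen_le_liminf_nat' fun G hG => ?_
    show Q.map _ G ≤ liminf (fun n => (P n).map _ G) atTop
    simp only [Measure.map_apply (hmX _) hG.measurableSet, Measure.map_apply hmY hG.measurableSet]
    let U : ∀ m, Set (Fin m → ℝ≥0∞) := fun m =>
      interior {z | ∀ y : ℕ → ℝ≥0∞, (∀ i : Fin m, y i = z i) → s y ∈ G}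
    have hU : ∀ m, 1 ≤ m → Q {ω | (fun i : Fin m => infEDist (x i) (Y ω)) ∈ U m} ≤
        liminf (fun n => P n ((fun ω => s fun i => infEDist (x i) (X n ω)) ⁻¹' G)) atTop := by
      intro m hm1
      have h1 : ∀ n, Measurable fun ω => fun i : Fin m => infEDist (x i) (X n ω) := fun n =>
        measurable_pi_lambda _ fun i => rcs_meas (hX n) (x i)
      have h2 : Measurable fun ω => fun i : Fin m => infEDist (x i) (Y ω) :=
        measurable_pi_lambda _ fun i => rcs_meas hY (x i)
      let νs : ℕ → ProbabilityMeasure (Fin m → ℝ≥0∞) := fun n =>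
        ⟨(P n).map fun ω => fun i : Fin m => infEDist (x i) (X n ω),
          Measure.isProbabilityMeasure_map (h1 n).aemeasurable⟩
      let ν : ProbabilityMeasure (Fin m → ℝ≥0∞) :=
        ⟨Q.map fun ω => fun i : Fin m => infEDist (x i) (Y ω),
          Measure.isProbabilityMeasure_map h2.aemeasurable⟩
      have h3 : Tendsto νs atTop (𝓝 ν) := by
        refine ProbabilityMeasure.tendsto_iff_forall_integral_tendsto.2 fun g => ?_
        show Tendsto (fun n => ∫ z, g z ∂((P n).map _)) atTop (𝓝 (∫ z, g z ∂(Q.map _)))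
        simp only [integral_map (h1 _).aemeasurable g.continuous.aestronglyMeasurable,
          integral_map h2.aemeasurable g.continuous.aestronglyMeasurable]
        exact hconv m hm1 (fun i => x i) g
      have h4 := ProbabilityMeasure.le_liminf_measure_open_of_tendsto h3
        (isOpen_interior : IsOpen (U m))
      change Q.map _ (U m) ≤ liminf (fun n => (P n).map _ (U m)) atTop at h4
      simp only [Measure.map_apply (h1 _) isOpen_interior.measurableSet,
        Measure.map_apply h2 isOpen_interior.measurableSet, U] at h4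
      refine h4.trans (liminf_le_liminf (Eventually.of_forall fun n => measure_mono fun ω h => ?_))
      exact interior_subset h _ fun i => rfl
    let A : ℕ → Set Ω' := fun m =>
      {ω | ∀ m', m ≤ m' → (fun i : Fin m' => infEDist (x i) (Y ω)) ∈ U m'}
    have hA : Monotone A := fun a b hab ω h m' hm => h m' (hab.trans hm)
    have hgen : ∀ᵐ ω ∂Q, ∀ i l, infEDist (x i) (Y ω) ≠ ENNReal.ofReal (r l) := by
      refine ae_all_iff.2 fun i => ae_all_iff.2 fun l => ?_
      refine measure_mono_null (fun ω h => ?_) (hr0 l i)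
      have h' : infEDist (x i) (Y ω) = ENNReal.ofReal (r l) := not_not.1 h
      show (infEDist (x i) (Y ω)).toReal = r l
      rw [h', ENNReal.toReal_ofReal (hr l).1.le]
    have hsub : (fun ω => s fun i => infEDist (x i) (Y ω)) ⁻¹' G ≤ᵐ[Q] ⋃ m, A m := by
      filter_upwards [hgen, hYne] with ω h1 h2 h3
      obtain ⟨ε, hε, hb⟩ := Metric.isOpen_iff.1 hG _ h3
      obtain ⟨k, hk⟩ := hsmall ε hε
      obtain ⟨m, hm⟩ := idx_det hr hx h2 k
      refine mem_iUnion.2 ⟨m, fun m' hm' => mem_interior_iff_mem_nhds.2 ?_⟩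
      have h4 : ∀ᶠ z in 𝓝 (fun i : Fin m' => infEDist (x i) (Y ω)), ∀ i : Fin m',
          ∀ l : Fin (k + 1), (z i < ENNReal.ofReal (r l) ↔
            infEDist (x i) (Y ω) < ENNReal.ofReal (r l)) := by
        refine eventually_all.2 fun i => eventually_all.2 fun l => ?_
        have hc := (continuous_apply i).tendsto (fun i : Fin m' => infEDist (x i) (Y ω))
        rcases lt_or_gt_of_ne (h1 i l) with h5 | h5
        · exact (hc.eventually (gt_mem_nhds h5)).mono fun z hz => ⟨fun _ => h5, fun _ => hz⟩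
        · exact (hc.eventually (lt_mem_nhds h5)).mono fun z hz =>
            ⟨fun h => absurd h hz.le.not_gt, fun h => absurd h h5.le.not_gt⟩
      refine h4.mono fun z hz y hy => hb ?_
      have h5 := hm y fun i hi l hl => by
        have := hz ⟨i, by omega⟩ ⟨l, by omega⟩
        rw [← hy] at this
        exact this
      have h6 := hsd y k
      have h7 := hsd (fun i => infEDist (x i) (Y ω)) k
      rw [h5] at h6
      have h8 := dist_triangle_left (s y) (s fun i => infEDist (x i) (Y ω))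
        (x (idx x r k fun i => infEDist (x i) (Y ω)))
      have h9 : (4 : ℝ) / 2 ^ k = 2 / 2 ^ k + 2 / 2 ^ k := by ring
      rw [mem_ball]
      linarith
    refine (measure_mono_ae hsub).trans ?_
    rw [hA.measure_iUnion]
    refine iSup_le fun m => le_trans (measure_mono fun ω h => ?_) (hU (m + 1) (by omega))
    exact h (m + 1) (by omega)
  intro g
  have := ProbabilityMeasure.tendsto_iff_forall_integral_tendsto.1 key g
  change Tendsto (fun n => ∫ z, g z ∂((P n).map _)) atTop (𝓝 (∫ z, g z ∂(Q.map _))) at this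
  simpa only [integral_map (hmX _).aemeasurable g.continuous.aestronglyMeasurable,
    integral_map hmY.aemeasurable g.continuous.aestronglyMeasurable] using this

end Pool.Agent.Results.MP_eb9ef7_pr.Select
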